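import Mathlib

/-!
# Skew-symmetric linear `(2,p,p)`-AONT exist for every odd prime `p`

For `x ≠ y` in `F_p^*` put `m_{xy} = τ x / (x - y)`.  Then `m_{xy} + m_{yx} = τ`, the matrix is a
Cauchy matrix off its zero diagonal, and the bordered matrix is invertible because it acts on the
moments `∑ v(y) y^j` by the nonzero factors `-(j+1)`.
-/

namespace Pool.Agent.Results.MP_6c8620_co.SkewExistence

open Finset Matrix

/-- `M` is (the matrix of) a linear `(2,s,q)`-AONT: it is invertible and every `2 × 2` submatrix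
(two distinct rows, two distinct columns) is invertible. -/
def IsAONT {F : Type*} [Field F] {s : ℕ} (M : Matrix (Fin s) (Fin s) F) : Prop :=
  IsUnit M ∧ ∀ i i' j j' : Fin s, i ≠ i' → j ≠ j' →
    IsUnit (M.submatrix ![i, i'] ![j, j'])

/-- Type `p` standard form: every diagonal entry is `0` and every other entry of the first row and
of the first column equals `1` (the rows and columns are numbered `0, …, p - 1`). -/
def IsStandard {p : ℕ} (M : Matrix (Fin p) (Fin p) (ZMod p)) : Prop :=
  (∀ i, M i i = 0) ∧ (∀ i j : Fin p, i ≠ j → (i.val = 0 ∨ j.val = 0) → M i j = 1)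

/-- `M` is `τ`-skew-symmetric: `m_{ij} + m_{ji} = τ` for all distinct `i`, `j` different from the
first index. -/
def IsSkew {p : ℕ} (τ : ZMod p) (M : Matrix (Fin p) (Fin p) (ZMod p)) : Prop :=
  ∀ i j : Fin p, i.val ≠ 0 → j.val ≠ 0 → i ≠ j → M i j + M j i = τ

variable {p : ℕ}

/-- the element of `F_p` attached to an index -/
def X (i : Fin p) : ZMod p := (i.val : ZMod p)

theorem X_inj : Function.Injective (X : Fin p → ZMod p) := by
  intro i j h
  unfold X at h
  rw [ZMod.natCast_eq_natCast_iff'] at h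
  rw [Nat.mod_eq_of_lt i.2, Nat.mod_eq_of_lt j.2] at h
  exact Fin.ext h

theorem X_ne_zero {i : Fin p} (hi : i.val ≠ 0) : X i ≠ 0 := by
  intro h
  unfold X at h
  rw [ZMod.natCast_eq_zero_iff] at h
  exact hi (Nat.eq_zero_of_dvd_of_lt h i.2)

theorem X_zero {i : Fin p} (hi : i.val = 0) : X i = 0 := by
  unfold X; rw [hi]; simp

variable [hp : Fact p.Prime]

theorem X_bij : Function.Bijective (X : Fin p → ZMod p) := by
  have : NeZero p := ⟨hp.out.ne_zero⟩
  rw [Fintype.bijective_iff_injective_and_card]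
  exact ⟨X_inj, by rw [Fintype.card_fin, ZMod.card]⟩

/-- The matrix. -/
def A (τ : ZMod p) : Matrix (Fin p) (Fin p) (ZMod p) := fun i j =>
  if i = j then 0 else if i.val = 0 ∨ j.val = 0 then 1 else τ * X i / (X i - X j)

theorem A_std (τ : ZMod p) : IsStandard (A τ) := by
  refine ⟨fun i => by simp [A], fun i j hij h => by simp only [A, hij, h, if_true, if_false]⟩

theorem A_skew (τ : ZMod p) : IsSkew τ (A τ) := by
  intro i j hi hj hij
  have h1 : X i - X j ≠ 0 := sub_ne_zero.2 fun h => hij (X_inj h)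
  have h2 : X j - X i ≠ 0 := sub_ne_zero.2 fun h => hij (X_inj h.symm)
  simp only [A, hij, hij.symm, hi, hj, if_false, or_self]
  rw [← neg_sub (X i) (X j)] at h2 ⊢
  field_simp
  ring

theorem sum_inv (h2 : p ≠ 2) (y : ZMod p) : ∑ x : ZMod p, (x - y)⁻¹ = 0 := by
  rw [← Equiv.sum_comp (Equiv.addRight y)]
  simp only [Equiv.coe_addRight, add_sub_cancel_right]
  have h1 : ∑ x : ZMod p, x⁻¹ = ∑ x : ZMod p, x :=
    Equiv.sum_comp (Equiv.inv (ZMod p)) (fun x => x)
  rw [h1]
  have h3 := FiniteField.sum_pow_lt_card_sub_one (ZMod p) 1 (by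
    rw [ZMod.card]
    have := hp.out.two_le
    omega)
  simpa using h3

theorem key (h2 : p ≠ 2) (y : ZMod p) (j : ℕ) (hj : j + 1 < p) :
    ∑ x : ZMod p, x ^ (j + 1) / (x - y) + (j + 1) * y ^ j = 0 := by
  classical
  have h1 : ∀ x : ZMod p, x ^ (j + 1) / (x - y) =
      (∑ i ∈ range (j + 1), x ^ i * y ^ (j - i)) - (if x = y then (j + 1) * y ^ j else 0) +
        y ^ (j + 1) * (x - y)⁻¹ := by
    intro x
    by_cases hxy : x = y
    · subst hxy
      rw [sub_self, div_zero, _root_.inv_zero, mul_zero, add_zero, if_pos rfl]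
      have h3 : ∑ i ∈ range (j + 1), x ^ i * x ^ (j - i) = (j + 1) * x ^ j := by
        rw [Finset.sum_congr rfl (g := fun _ => x ^ j)]
        · simp
        · intro i hi
          rw [← pow_add]
          congr 1
          have := mem_range.1 hi
          omega
      rw [h3, sub_self]
    · have h4 : x - y ≠ 0 := sub_ne_zero.2 hxy
      have h5 := geom_sum₂_mul x y (j + 1)
      simp only [Nat.add_sub_cancel] at h5
      rw [if_neg hxy, sub_zero]
      rw [div_eq_iff h4, add_mul, h5, mul_assoc, inv_mul_cancel₀ h4]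
      ring
  rw [Finset.sum_congr rfl fun x _ => h1 x]
  rw [Finset.sum_add_distrib, Finset.sum_sub_distrib, ← Finset.mul_sum, sum_inv h2, mul_zero,
    add_zero, Finset.sum_ite_eq' univ y, if_pos (mem_univ y), Finset.sum_comm]
  have h6 : ∑ i ∈ range (j + 1), ∑ x : ZMod p, x ^ i * y ^ (j - i) = 0 := by
    refine Finset.sum_eq_zero fun i hi => ?_
    rw [← Finset.sum_mul, FiniteField.sum_pow_lt_card_sub_one, zero_mul]
    rw [ZMod.card]
    have := mem_range.1 hi
    omega
  rw [h6]
  ring

theorem A_unit (h2 : p ≠ 2) {τ : ZMod p} (hτ : τ ≠ 0) : IsUnit (A τ) := by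
  classical
  have h3 : 3 ≤ p := by
    have := hp.out.two_le
    omega
  rw [Matrix.isUnit_iff_isUnit_det, isUnit_iff_ne_zero]
  intro hdet
  obtain ⟨v, hv0, hv⟩ := Matrix.exists_mulVec_eq_zero_iff.2 hdet
  apply hv0
  set z : Fin p := ⟨0, hp.out.pos⟩ with hz
  have hzX : X z = 0 := X_zero rfl
  -- the first row
  have hrow0 : ∑ j ∈ univ.erase z, v j = 0 := by
    have h := congrFun hv z
    rw [Matrix.mulVec, dotProduct, Pi.zero_apply, ← Finset.add_sum_erase _ _ (mem_univ z)] at h
    have h4 : A τ z z = 0 := by simp [A]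
    rw [h4, zero_mul, zero_add] at h
    rw [← h]
    refine Finset.sum_congr rfl fun j hj => ?_
    have hj' := (mem_erase.1 hj).1
    have h6 : A τ z j = 1 := by
      simp only [A, hj'.symm, if_false]
      exact if_pos (Or.inl rfl)
    rw [h6, one_mul]
  -- the other rows
  have hrow : ∀ i : Fin p, i ≠ z → v z + ∑ j : Fin p, τ * (X i / (X i - X j)) * v j =
      τ * v z := by
    intro i hi
    have hi0 : i.val ≠ 0 := fun h => hi (Fin.ext h)
    have h := congrFun hv i
    rw [Matrix.mulVec, dotProduct, Pi.zero_apply, ← Finset.add_sum_erase _ _ (mem_univ z)] at h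
    have h4 : A τ i z = 1 := by
      simp only [A, hi, if_false]
      exact if_pos (Or.inr rfl)
    rw [h4, one_mul] at h
    rw [← Finset.add_sum_erase _ _ (mem_univ z), hzX, sub_zero, div_self (X_ne_zero hi0), mul_one]
    have h5 : ∑ j ∈ univ.erase z, τ * (X i / (X i - X j)) * v j =
        ∑ j ∈ univ.erase z, A τ i j * v j := by
      refine Finset.sum_congr rfl fun j hj => ?_
      have hj' := (mem_erase.1 hj).1
      have hj0 : j.val ≠ 0 := fun h => hj' (Fin.ext h)
      by_cases hij : i = j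
      · subst hij; simp [A]
      · simp only [A, hij, hi0, hj0, if_false, or_self]
        rw [mul_div_assoc]
    rw [h5]
    linear_combination h
  have hmom : ∀ k : ℕ, k + 1 < p → (∑ i : Fin p, X i ^ k) * v z - v z * (if k = 0 then 1 else 0)
      - τ * (((k : ZMod p) + 1) * ∑ j : Fin p, v j * X j ^ k) =
      τ * v z * ((∑ i : Fin p, X i ^ k) - (if k = 0 then 1 else 0)) := by
    intro k hk
    have h4 : ∑ i ∈ univ.erase z, X i ^ k * (v z + ∑ j : Fin p, τ * (X i / (X i - X j)) * v j) =
        ∑ i ∈ univ.erase z, X i ^ k * (τ * v z) :=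
      Finset.sum_congr rfl fun i hi => by rw [hrow i (mem_erase.1 hi).1]
    have h5 : ∑ i ∈ univ.erase z, X i ^ k = (∑ i : Fin p, X i ^ k) - (if k = 0 then 1 else 0) := by
      rw [← Finset.add_sum_erase _ _ (mem_univ z), hzX]
      split_ifs with hk0
      · subst hk0; ring
      · rw [zero_pow hk0]; ring
    have h6 : ∑ i ∈ univ.erase z, X i ^ k * ∑ j : Fin p, τ * (X i / (X i - X j)) * v j =
        - (τ * (((k : ZMod p) + 1) * ∑ j : Fin p, v j * X j ^ k)) := by
      have h7 : ∑ i ∈ univ.erase z, X i ^ k * ∑ j : Fin p, τ * (X i / (X i - X j)) * v j =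
          ∑ i : Fin p, X i ^ k * ∑ j : Fin p, τ * (X i / (X i - X j)) * v j := by
        rw [← Finset.add_sum_erase univ _ (mem_univ z), hzX]
        simp
      rw [h7]
      simp only [Finset.mul_sum]
      rw [Finset.sum_comm, ← Finset.sum_neg_distrib]
      refine Finset.sum_congr rfl fun j _ => ?_
      have h8 := key h2 (X j) k hk
      rw [← Function.Bijective.sum_comp X_bij] at h8
      have h9 : ∑ i : Fin p, X i ^ k * (τ * (X i / (X i - X j)) * v j) =
          τ * v j * ∑ i : Fin p, X i ^ (k + 1) / (X i - X j) := by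
        rw [Finset.mul_sum]
        refine Finset.sum_congr rfl fun i _ => ?_
        rw [pow_succ]
        ring
      rw [h9]
      linear_combination τ * v j * h8
    simp only [mul_add] at h4
    rw [Finset.sum_add_distrib, ← Finset.sum_mul, ← Finset.sum_mul, h6, h5] at h4
    linear_combination h4
  have hpow : ∀ k : ℕ, k + 1 < p → ∑ i : Fin p, X i ^ k = 0 := by
    intro k hk
    rw [Function.Bijective.sum_comp X_bij (fun x => x ^ k)]
    exact FiniteField.sum_pow_lt_card_sub_one _ _ (by rw [ZMod.card]; omega)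
  have hall : ∑ j : Fin p, v j = v z := by
    rw [← Finset.add_sum_erase _ _ (mem_univ z), hrow0, add_zero]
  have hvz : v z = 0 := by
    have h4 := hmom 0 (by omega)
    rw [hpow 0 (by omega)] at h4
    simp only [if_true, pow_zero, mul_one, Nat.cast_zero, zero_add, one_mul, hall] at h4
    linear_combination -h4
  refine Matrix.eq_zero_of_forall_pow_sum_mul_pow_eq_zero X_inj fun k => ?_
  have hk := k.2
  rcases Nat.lt_or_ge (k.val + 1) p with hk1 | hk1
  · have h4 := hmom k hk1
    rw [hpow k hk1, hvz] at h4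
    have h5 : τ * (((k.val : ZMod p) + 1) * ∑ j : Fin p, v j * X j ^ (k : ℕ)) = 0 := by
      linear_combination -h4
    have h6 : ((k.val : ZMod p) + 1) ≠ 0 := by
      have : (((k.val + 1 : ℕ)) : ZMod p) ≠ 0 := by
        rw [Ne, ZMod.natCast_eq_zero_iff]
        intro hd
        have := Nat.le_of_dvd (by omega) hd
        omega
      exact_mod_cast this
    rcases mul_eq_zero.1 h5 with h7 | h7
    · exact absurd h7 hτ
    · rcases mul_eq_zero.1 h7 with h8 | h8
      · exact absurd h8 h6
      · exact h8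
  · have hk2 : k.val = p - 1 := by omega
    rw [← Finset.add_sum_erase _ _ (mem_univ z), hvz, zero_mul, zero_add, ← hrow0]
    refine Finset.sum_congr rfl fun j hj => ?_
    have hj' := (mem_erase.1 hj).1
    have hj0 : j.val ≠ 0 := fun h => hj' (Fin.ext h)
    rw [hk2, ZMod.pow_card_sub_one_eq_one (X_ne_zero hj0), mul_one]

theorem A_minor {τ : ZMod p} (hτ : τ ≠ 0) (i i' j j' : Fin p) (hi : i ≠ i') (hj : j ≠ j') :
    A τ i j * A τ i' j' - A τ i j' * A τ i' j ≠ 0 := by
  have hX : ∀ {a b : Fin p}, a ≠ b → X a - X b ≠ 0 := fun h => sub_ne_zero.2 fun h' => h (X_inj h')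
  -- off the border
  have hne : ∀ a b : Fin p, a ≠ b → A τ a b ≠ 0 := by
    intro a b hab
    simp only [A, hab, if_false]
    split_ifs with h
    · exact one_ne_zero
    · push Not at h
      exact div_ne_zero (mul_ne_zero hτ (X_ne_zero h.1)) (hX hab)
  have hdiag : ∀ a : Fin p, A τ a a = 0 := fun a => by simp [A]
  by_cases h1 : i = j
  · subst h1
    rw [hdiag, zero_mul, zero_sub, neg_ne_zero]
    exact mul_ne_zero (hne _ _ hj) (hne _ _ hi.symm)
  by_cases h2 : i' = j'
  · subst h2
    rw [hdiag, mul_zero, zero_sub, neg_ne_zero]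
    exact mul_ne_zero (hne _ _ hi) (hne _ _ hj.symm)
  by_cases h3 : i = j'
  · subst h3
    rw [hdiag, zero_mul, sub_zero]
    exact mul_ne_zero (hne _ _ h1) (hne _ _ h2)
  by_cases h4 : i' = j
  · subst h4
    rw [hdiag, mul_zero, sub_zero]
    exact mul_ne_zero (hne _ _ h1) (hne _ _ h2)
  -- now all four entries are off the diagonal
  have e : ∀ a b : Fin p, a ≠ b → a.val ≠ 0 → b.val ≠ 0 → A τ a b = τ * X a / (X a - X b) := by
    intro a b hab ha hb
    simp only [A, hab, ha, hb, if_false, or_self]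
  have e1 : ∀ a b : Fin p, a ≠ b → (a.val = 0 ∨ b.val = 0) → A τ a b = 1 := by
    intro a b hab h
    simp only [A, hab, h, if_true, if_false]
  have hval : ∀ {a b : Fin p}, a ≠ b → a.val = 0 → b.val ≠ 0 := fun hab ha hb =>
    hab (Fin.ext (ha.trans hb.symm))
  have x1 := hX h1
  have x2 := hX h2
  have x3 := hX h3
  have x4 := hX h4
  have xi := hX hi
  have xj := hX hj
  by_cases ci : i.val = 0
  · have ci' := hval hi ci
    have cj := hval h1 ci
    have cj' := hval h3 ci
    rw [e1 _ _ h1 (Or.inl ci), e1 _ _ h3 (Or.inl ci), e _ _ h2 ci' cj', e _ _ h4 ci' cj,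
      one_mul, one_mul, div_sub_div _ _ x2 x4]
    refine div_ne_zero ?_ (mul_ne_zero x2 x4)
    have : τ * X i' * (X i' - X j) - (X i' - X j') * (τ * X i') = -(τ * X i' * (X j - X j')) := by
      ring
    rw [this]
    exact neg_ne_zero.2 (mul_ne_zero (mul_ne_zero hτ (X_ne_zero ci')) xj)
  by_cases ci' : i'.val = 0
  · have cj := hval h4 ci'
    have cj' := hval h2 ci'
    rw [e1 _ _ h2 (Or.inl ci'), e1 _ _ h4 (Or.inl ci'), e _ _ h1 ci cj, e _ _ h3 ci cj',
      mul_one, mul_one, div_sub_div _ _ x1 x3]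
    refine div_ne_zero ?_ (mul_ne_zero x1 x3)
    have : τ * X i * (X i - X j') - (X i - X j) * (τ * X i) = τ * X i * (X j - X j') := by
      ring
    rw [this]
    exact mul_ne_zero (mul_ne_zero hτ (X_ne_zero ci)) xj
  by_cases cj : j.val = 0
  · have cj' := hval hj cj
    rw [e1 _ _ h1 (Or.inr cj), e1 _ _ h4 (Or.inr cj), e _ _ h2 ci' cj', e _ _ h3 ci cj',
      mul_one, one_mul, div_sub_div _ _ x2 x3]
    refine div_ne_zero ?_ (mul_ne_zero x2 x3)
    have : τ * X i' * (X i - X j') - (X i' - X j') * (τ * X i) = τ * X j' * (X i - X i') := by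
      ring
    rw [this]
    exact mul_ne_zero (mul_ne_zero hτ (X_ne_zero cj')) xi
  by_cases cj' : j'.val = 0
  · rw [e1 _ _ h2 (Or.inr cj'), e1 _ _ h3 (Or.inr cj'), e _ _ h1 ci cj, e _ _ h4 ci' cj,
      mul_one, one_mul, div_sub_div _ _ x1 x4]
    refine div_ne_zero ?_ (mul_ne_zero x1 x4)
    have : τ * X i * (X i' - X j) - (X i - X j) * (τ * X i') = -(τ * X j * (X i - X i')) := by
      ring
    rw [this]
    exact neg_ne_zero.2 (mul_ne_zero (mul_ne_zero hτ (X_ne_zero cj)) xi)
  · rw [e _ _ h1 ci cj, e _ _ h2 ci' cj', e _ _ h3 ci cj', e _ _ h4 ci' cj, div_mul_div_comm,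
      div_mul_div_comm, div_sub_div _ _ (mul_ne_zero x1 x2) (mul_ne_zero x3 x4)]
    refine div_ne_zero ?_ (mul_ne_zero (mul_ne_zero x1 x2) (mul_ne_zero x3 x4))
    have : τ * X i * (τ * X i') * ((X i - X j') * (X i' - X j)) -
        (X i - X j) * (X i' - X j') * (τ * X i * (τ * X i')) =
        τ * τ * X i * X i' * ((X i - X i') * (X j' - X j)) := by
      ring
    rw [this]
    exact mul_ne_zero (mul_ne_zero (mul_ne_zero (mul_ne_zero hτ hτ) (X_ne_zero ci))
      (X_ne_zero ci')) (mul_ne_zero xi (hX hj.symm))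

theorem not_zero (h2 : p ≠ 2) {M : Matrix (Fin p) (Fin p) (ZMod p)} (h1 : IsStandard M)
    (hs : IsSkew 0 M) : ¬ IsUnit M := by
  classical
  rw [Matrix.isUnit_iff_isUnit_det, isUnit_iff_ne_zero, not_not]
  set d : Fin p → ZMod p := fun i => if i.val = 0 then -1 else 1 with hd
  have h3 : Matrix.diagonal d * M * Matrix.diagonal d = -Mᵀ := by
    ext i j
    rw [Matrix.mul_diagonal, Matrix.diagonal_mul, Matrix.neg_apply, Matrix.transpose_apply]
    by_cases hij : i = j
    · subst hij; rw [h1.1]; simp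
    by_cases hi : i.val = 0
    · have hj : j.val ≠ 0 := fun h => hij (Fin.ext (hi.trans h.symm))
      rw [h1.2 i j hij (Or.inl hi), h1.2 j i (Ne.symm hij) (Or.inr hi)]
      simp only [hd, hi, hj, if_true, if_false, mul_one]
    by_cases hj : j.val = 0
    · rw [h1.2 i j hij (Or.inr hj), h1.2 j i (Ne.symm hij) (Or.inl hj)]
      simp only [hd, hi, hj, if_true, if_false, mul_one, one_mul]
    · have := hs i j hi hj hij
      simp only [hd, hi, hj, if_false, one_mul, mul_one]
      linear_combination this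
  have h4 := congrArg Matrix.det h3
  rw [Matrix.det_mul, Matrix.det_mul, Matrix.det_neg, Matrix.det_transpose, Fintype.card_fin,
    (hp.out.odd_of_ne_two h2).neg_one_pow, Matrix.det_diagonal] at h4
  have h5 : (∏ i, d i) * (∏ i, d i) = 1 := by
    rw [← Finset.prod_mul_distrib]
    refine Finset.prod_eq_one fun i _ => ?_
    simp only [hd]
    split_ifs <;> simp
  have h6 : (2 : ZMod p) * M.det = 0 := by
    linear_combination h4 - M.det * h5
  rcases mul_eq_zero.1 h6 with h7 | h7
  · exfalso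
    have h8 : ((2 : ℕ) : ZMod p) = 0 := by exact_mod_cast h7
    rw [ZMod.natCast_eq_zero_iff] at h8
    exact h2 ((Nat.prime_dvd_prime_iff_eq hp.out Nat.prime_two).1 h8)
  · exact h7

/-- For every odd prime `p` and every `τ` in `F_p`, a `τ`-skew-symmetric linear `(2,p,p)`-AONT in
type `p` standard form exists if and only if `τ ≠ 0`. -/
theorem result (p : ℕ) [Fact p.Prime] (hp2 : p ≠ 2) (τ : ZMod p) :
    (∃ M : Matrix (Fin p) (Fin p) (ZMod p), IsAONT M ∧ IsStandard M ∧ IsSkew τ M) ↔ τ ≠ 0 := by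
  constructor
  · rintro ⟨M, hM, hst, hsk⟩ rfl
    exact not_zero hp2 hst hsk hM.1
  · intro hτ
    refine ⟨A τ, ⟨A_unit hp2 hτ, fun i i' j j' hi hj => ?_⟩, A_std τ, A_skew τ⟩
    rw [Matrix.isUnit_iff_isUnit_det, isUnit_iff_ne_zero, Matrix.det_fin_two]
    simpa using A_minor hτ i i' j j' hi hj

end Pool.Agent.Results.MP_6c8620_co.SkewExistence
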